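import Mathlib
import Pool.Agent.Helper65.SL.Stmt
import Pool.Agent.Helper65.SL.Fin

/-! Metrics of positive Ricci curvature on `S² × N` with orthogonal factors and pairwise conformal
slices `{x} × N`. -/

namespace Pool.Agent.Results.MP_1eb6eb_gt.ConformalSlices

open scoped ContDiff Manifold
open Pool.Agent.Helper23.RicS2 Pool.Agent.Helper65.SLS

/-- Let `N` be a compact smooth manifold of dimension `m ≥ 2` and `g` a smooth Riemannian metric on
`S² × N` for which the two factors are orthogonal and which restricts to `ρ(x,y) h₀(y)` on the slices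
`{x} × N`, where `h₀` is a metric on `N`. Suppose that the squared area density `A(x,y)` of
`S² × {y}` satisfies `A ρ^κ = α(x) β(y)` for some `κ ≤ 2 (m - 1)`. If `g` has positive Ricci
curvature, or only the sum of its Ricci curvatures over every orthonormal `m`-frame is positive,
then `h₀` is conformal to a metric of positive scalar curvature. -/
theorem result {m : ℕ} (hm : 2 ≤ m) {N : Type*} [TopologicalSpace N] [CompactSpace N]
    [ChartedSpace (EuclideanSpace ℝ (Fin m)) N] [IsManifold (𝓡 m) ∞ N]
    (g : RiemSN m N) (ho : OrthFactors g) (h₀ : RiemN m N) (ρ : S2 → N → ℝ)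
    (hρ : ∀ x y v w, g.inner x y 0 v 0 w = ρ x y * h₀.form y v w)
    (κ : ℝ) (hκ : κ ≤ 2 * ((m : ℝ) - 1)) (α : S2 → ℝ) (β : N → ℝ)
    (hA : ∀ x y, areaSq g x y * ρ x y ^ κ = α x * β y) (hR : PosRicSN g ∨ KPosRicSN m g) :
    ∃ h : RiemN m N, PosScalN h ∧
      ∃ u : N → ℝ, ∀ y v w, h.form y v w = Real.exp (2 * u y) * h₀.form y v w :=
  final2 hm g ho h₀ ρ hρ κ hκ α β hA hR

end Pool.Agent.Results.MP_1eb6eb_gt.ConformalSlices
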