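import Mathlib
import Pool.Agent.Helper65.SL.Stmt
import Pool.Agent.Helper65.SL.Fin

/-! Metrics of positive Ricci curvature on `S² × N` with orthogonal factors for which the volume
densities of the slices `{x} × N` are locally minimal at one `x₀`: the slice `{x₀} × N` is conformal
to a metric of positive scalar curvature. -/

namespace Pool.Agent.Results.MP_1eb6eb_gt.MinimalSlice

open scoped ContDiff Manifold
open Pool.Agent.Helper23.RicS2 Pool.Agent.Helper65.SLS

/-- Let `N` be a smooth manifold of dimension `m ≥ 2` and `g` a smooth Riemannian metric on
`S² × N` for which the two factors are orthogonal, such that for some `x₀` and every `y` the volume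
density at `y` of the slice `{x} × N` has, as a function of `x`, a local minimum at `x₀`. If `g` has
positive Ricci curvature, or only the sum of its Ricci curvatures over every orthonormal `m`-frame
is positive, then `N` has a metric of positive scalar curvature conformal to the slice
`{x₀} × N`. -/
theorem result {m : ℕ} (hm : 2 ≤ m) {N : Type*} [TopologicalSpace N]
    [ChartedSpace (EuclideanSpace ℝ (Fin m)) N] [IsManifold (𝓡 m) ∞ N]
    (g : RiemSN m N) (ho : OrthFactors g) (x₀ : S2)
    (hmin : ∀ y, IsLocalMin (fun x => volSq g x y) x₀) (hR : PosRicSN g ∨ KPosRicSN m g) :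
    ∃ h : RiemN m N, PosScalN h ∧
      ∃ u : N → ℝ, ∀ y v w, h.form y v w = Real.exp (2 * u y) * g.inner x₀ y 0 v 0 w :=
  final1 hm g ho x₀ hmin hR

end Pool.Agent.Results.MP_1eb6eb_gt.MinimalSlice
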